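import Mathlib

set_option autoImplicit false

namespace Pool.Agent.H65.LacPS

open Filter Topology

noncomputable section

/-- the power series with real coefficients `a` converges everywhere to `F` -/
def PS (a : ℕ → ℝ) (F : ℂ → ℂ) : Prop := ∀ z : ℂ, HasSum (fun k => (a k : ℂ) * z ^ k) (F z)

theorem hs_congr {f g : ℕ → ℂ} {s : ℂ} (h : HasSum f s) (e : ∀ k, f k = g k) : HasSum g s := by
  have : f = g := funext e
  rwa [this] at h

theorem PS.summable_norm {a : ℕ → ℝ} {F : ℂ → ℂ} (h : PS a F) (z : ℂ) :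
    Summable (fun k => ‖(a k : ℂ) * z ^ k‖) := (h z).summable.norm

theorem PS.fps {a : ℕ → ℝ} {F : ℂ → ℂ} (h : PS a F) :
    HasFPowerSeriesOnBall F (FormalMultilinearSeries.ofScalars ℂ (fun k => (a k : ℂ))) 0 1 := by
  refine ⟨?_, by norm_num, ?_⟩
  · have h1 := FormalMultilinearSeries.le_radius_of_summable
      (p := FormalMultilinearSeries.ofScalars ℂ (fun k => (a k : ℂ))) (r := 1) ?_
    · simpa using h1
    · have h2 := h.summable_norm 1
      refine h2.of_nonneg_of_le (fun k => by positivity) (fun k => ?_)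
      rw [FormalMultilinearSeries.ofScalars_norm]
      simp
  · intro y _
    have := h y
    rw [zero_add]
    simpa [FormalMultilinearSeries.ofScalars_apply_eq, smul_eq_mul, mul_comm] using this

theorem PS.uniq {a b : ℕ → ℝ} {F : ℂ → ℂ} (h : PS a F) (h' : PS b F) : a = b := by
  have h1 := h.fps.hasFPowerSeriesAt.eq_formalMultilinearSeries h'.fps.hasFPowerSeriesAt
  funext k
  have h2 : (fun k => (a k : ℂ)) = (fun k => (b k : ℂ)) :=
    FormalMultilinearSeries.ofScalars_series_injective (𝕜 := ℂ) ℂ h1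
  have := congrFun h2 k
  exact_mod_cast this

theorem PS.congr {a : ℕ → ℝ} {F G : ℂ → ℂ} (h : PS a F) (h' : ∀ z, F z = G z) : PS a G := by
  intro z; rw [← h' z]; exact h z

theorem PS.coeff_zero {a : ℕ → ℝ} {F : ℂ → ℂ} (h : PS a F) : (a 0 : ℂ) = F 0 := by
  have h1 := h 0
  have h2 : HasSum (fun k => (a k : ℂ) * (0 : ℂ) ^ k) (a 0 : ℂ) := by
    have := hasSum_single (f := fun k => (a k : ℂ) * (0 : ℂ) ^ k) 0 (by
      intro k hk; simp [hk])
    simpa using this
  exact h2.unique h1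

theorem PS.coeff_one {a : ℕ → ℝ} {F : ℂ → ℂ} (h : PS a F) {d : ℂ} (hd : HasDerivAt F d 0) :
    (a 1 : ℂ) = d := by
  have h1 := h.fps.hasFPowerSeriesAt.hasDerivAt
  have h2 := h1.unique hd
  simpa [FormalMultilinearSeries.ofScalars_apply_eq] using h2

theorem PS.add {a b : ℕ → ℝ} {F G : ℂ → ℂ} (hF : PS a F) (hG : PS b G) :
    PS (fun k => a k + b k) (fun z => F z + G z) := by
  intro z
  have := (hF z).add (hG z)
  refine hs_congr this (fun k => ?_)
  push_cast
  ring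

theorem PS.sub {a b : ℕ → ℝ} {F G : ℂ → ℂ} (hF : PS a F) (hG : PS b G) :
    PS (fun k => a k - b k) (fun z => F z - G z) := by
  intro z
  have := (hF z).sub (hG z)
  refine hs_congr this (fun k => ?_)
  push_cast
  ring

theorem PS.smul {a : ℕ → ℝ} {F : ℂ → ℂ} (c : ℝ) (hF : PS a F) :
    PS (fun k => c * a k) (fun z => c * F z) := by
  intro z
  have := (hF z).mul_left (c : ℂ)
  refine hs_congr this (fun k => ?_)
  push_cast
  ring

theorem PS.mono (m : ℕ) (c : ℝ) : PS (fun k => if k = m then c else 0) (fun z => (c : ℂ) * z ^ m) := by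
  intro z
  have := hasSum_single (f := fun k => (((if k = m then c else 0 : ℝ)) : ℂ) * z ^ k) m (by
    intro k hk
    simp [hk])
  simpa using this

theorem PS.mul {a b : ℕ → ℝ} {F G : ℂ → ℂ} (hF : PS a F) (hG : PS b G) :
    PS (fun k => ∑ p ∈ Finset.HasAntidiagonal.antidiagonal k, a p.1 * b p.2) (fun z => F z * G z) := by
  intro z
  have hF' := hF.summable_norm z
  have hG' := hG.summable_norm z
  have h1 := (summable_norm_sum_mul_antidiagonal_of_summable_norm hF' hG').of_norm.hasSum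
  rw [← tsum_mul_tsum_eq_tsum_sum_antidiagonal_of_summable_norm hF' hG', (hF z).tsum_eq,
    (hG z).tsum_eq] at h1
  refine hs_congr h1 (fun k => ?_)
  push_cast
  rw [Finset.sum_mul]
  refine Finset.sum_congr rfl (fun p hp => ?_)
  rw [← Finset.HasAntidiagonal.mem_antidiagonal.1 hp, pow_add]
  ring

/-- real value -/
def val (a : ℕ → ℝ) (x : ℝ) : ℝ := ∑' k, a k * x ^ k

theorem PS.hasSum_val {a : ℕ → ℝ} {F : ℂ → ℂ} (hF : PS a F) (x : ℝ) :
    HasSum (fun k => a k * x ^ k) (val a x) := by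
  have h := (hF x).summable
  have h2 : Summable (fun k => a k * x ^ k) := by
    rw [← Complex.summable_ofReal]
    simpa using h
  exact h2.hasSum

theorem PS.eq_val {a : ℕ → ℝ} {F : ℂ → ℂ} (hF : PS a F) (x : ℝ) : F x = (val a x : ℂ) := by
  have h := hF x
  have h2 := Complex.hasSum_ofReal.2 (hF.hasSum_val x)
  refine h.unique ?_
  simpa using h2

theorem PS.norm_le {a : ℕ → ℝ} {F : ℂ → ℂ} (ha : ∀ k, 0 ≤ a k) (hF : PS a F) (z : ℂ) :
    ‖F z‖ ≤ val a ‖z‖ := by
  rw [← (hF z).tsum_eq]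
  refine (norm_tsum_le_tsum_norm (hF.summable_norm z)).trans (le_of_eq ?_)
  unfold val
  congr 1
  funext k
  rw [norm_mul, norm_pow, Complex.norm_real, Real.norm_of_nonneg (ha k)]

theorem PS.val_nonneg {a : ℕ → ℝ} (ha : ∀ k, 0 ≤ a k) {x : ℝ} (hx : 0 ≤ x) : 0 ≤ val a x :=
  tsum_nonneg (fun k => mul_nonneg (ha k) (pow_nonneg hx k))

theorem PS.term_le_val {a : ℕ → ℝ} {F : ℂ → ℂ} (ha : ∀ k, 0 ≤ a k) (hF : PS a F) {x : ℝ}
    (hx : 0 ≤ x) (k : ℕ) : a k * x ^ k ≤ val a x :=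
  (hF.hasSum_val x).summable.le_tsum k (fun j _ => mul_nonneg (ha j) (pow_nonneg hx j))

theorem PS.val_mono {a : ℕ → ℝ} {F : ℂ → ℂ} (ha : ∀ k, 0 ≤ a k) (hF : PS a F) {x y : ℝ}
    (hx : 0 ≤ x) (hxy : x ≤ y) : val a x ≤ val a y := by
  refine Summable.tsum_le_tsum (fun k => ?_) (hF.hasSum_val x).summable (hF.hasSum_val y).summable
  exact mul_le_mul_of_nonneg_left (pow_le_pow_left₀ hx hxy k) (ha k)

/-- entire function with nonnegative coefficients, the first `d` being zero -/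
def NN (d : ℕ) (F : ℂ → ℂ) : Prop :=
  ∃ a : ℕ → ℝ, (∀ k, 0 ≤ a k) ∧ (∀ k < d, a k = 0) ∧ PS a F

theorem NN.congr {d : ℕ} {F G : ℂ → ℂ} (h : NN d F) (h' : ∀ z, F z = G z) : NN d G := by
  obtain ⟨a, h1, h2, h3⟩ := h
  exact ⟨a, h1, h2, h3.congr h'⟩

theorem NN.le {d e : ℕ} {F : ℂ → ℂ} (h : NN d F) (he : e ≤ d) : NN e F := by
  obtain ⟨a, h1, h2, h3⟩ := h
  exact ⟨a, h1, fun k hk => h2 k (by omega), h3⟩

theorem NN.add {d : ℕ} {F G : ℂ → ℂ} (hF : NN d F) (hG : NN d G) : NN d (fun z => F z + G z) := by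
  obtain ⟨a, h1, h2, h3⟩ := hF
  obtain ⟨b, g1, g2, g3⟩ := hG
  exact ⟨_, fun k => add_nonneg (h1 k) (g1 k), fun k hk => by rw [h2 k hk, g2 k hk, add_zero],
    h3.add g3⟩

theorem NN.mul {d e : ℕ} {F G : ℂ → ℂ} (hF : NN d F) (hG : NN e G) :
    NN (d + e) (fun z => F z * G z) := by
  obtain ⟨a, h1, h2, h3⟩ := hF
  obtain ⟨b, g1, g2, g3⟩ := hG
  refine ⟨_, fun k => Finset.sum_nonneg (fun p _ => mul_nonneg (h1 _) (g1 _)), fun k hk => ?_,
    h3.mul g3⟩
  refine Finset.sum_eq_zero (fun p hp => ?_)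
  have := Finset.HasAntidiagonal.mem_antidiagonal.1 hp
  rcases lt_or_ge p.1 d with h | h
  · rw [h2 _ h, zero_mul]
  · rw [g2 _ (by omega), mul_zero]

theorem NN.mono (m : ℕ) {c : ℝ} (hc : 0 ≤ c) : NN m (fun z => (c : ℂ) * z ^ m) := by
  refine ⟨_, fun k => ?_, fun k hk => ?_, PS.mono m c⟩
  · split_ifs
    · exact hc
    · exact le_rfl
  · rw [if_neg (by omega)]

theorem NN.const {c : ℝ} (hc : 0 ≤ c) : NN 0 (fun _ => (c : ℂ)) :=
  (NN.mono 0 hc).congr (fun z => by simp)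

theorem NN.smul {d : ℕ} {F : ℂ → ℂ} {c : ℝ} (hc : 0 ≤ c) (hF : NN d F) :
    NN d (fun z => (c : ℂ) * F z) := by
  have := (NN.const hc).mul hF
  rwa [zero_add] at this

theorem NN.pow {d : ℕ} {F : ℂ → ℂ} (hF : NN d F) (i : ℕ) : NN (i * d) (fun z => F z ^ i) := by
  induction i with
  | zero => 
    have := NN.const (c := 1) zero_le_one
    simpa using this
  | succ i ih =>
    have := ih.mul hF
    rw [Nat.succ_mul]
    refine this.congr (fun z => ?_)
    rw [pow_succ]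

/-- sums of families -/
theorem NN.tsum {d : ℕ} {F : ℕ → ℂ → ℂ} (hF : ∀ i, NN d (F i))
    (hs : ∀ r : ℝ, 0 ≤ r → Summable (fun i => ‖F i r‖)) : NN d (fun z => ∑' i, F i z) := by
  choose a h1 h2 h3 using hF
  have hprod : ∀ z : ℂ, Summable (fun p : ℕ × ℕ => ‖(a p.1 p.2 : ℂ) * z ^ p.2‖) := by
    intro z
    rw [summable_prod_of_nonneg (fun p => norm_nonneg _)]
    refine ⟨fun i => (h3 i).summable_norm z, ?_⟩
    refine (hs ‖z‖ (norm_nonneg _)).congr (fun i => ?_)
    rw [(h3 i).eq_val, Complex.norm_real, Real.norm_of_nonneg (PS.val_nonneg (h1 i) (norm_nonneg _))]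
    unfold val
    congr 1
    funext k
    rw [norm_mul, norm_pow, Complex.norm_real, Real.norm_of_nonneg (h1 i k)]
  have hsa : ∀ k, Summable (fun i => a i k) := by
    intro k
    have h4 := (hprod 1).prod_symm
    rw [summable_prod_of_nonneg (fun p => norm_nonneg _)] at h4
    refine (h4.1 k).congr (fun i => ?_)
    simp [abs_of_nonneg (h1 i k)]
  refine ⟨fun k => ∑' i, a i k, fun k => tsum_nonneg (fun i => h1 i k), fun k hk => ?_, ?_⟩
  · simp only [fun i => h2 i k hk, tsum_zero]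
  · intro z
    have h4 : HasSum (fun p : ℕ × ℕ => (a p.1 p.2 : ℂ) * z ^ p.2) _ := (hprod z).of_norm.hasSum
    have h5 := h4.prod_fiberwise (fun i => h3 i z)
    have h6 := h5.tsum_eq
    show HasSum _ (∑' i, F i z)
    rw [h6]
    have h7 := (Equiv.prodComm ℕ ℕ).hasSum_iff.2 h4
    refine h7.prod_fiberwise (fun k => ?_)
    have h8 := (Complex.hasSum_ofReal.2 (hsa k).hasSum).mul_right (z ^ k)
    simpa using h8

theorem NN.comp {d e : ℕ} {H F : ℂ → ℂ} (hH : NN d H) (hF : NN e F) :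
    NN (d * e) (fun z => H (F z)) := by
  obtain ⟨h, h1, h2, h3⟩ := hH
  have h4 : ∀ i, NN (d * e) (fun z => (h i : ℂ) * F z ^ i) := by
    intro i
    rcases lt_or_ge i d with hi | hi
    · rw [h2 i hi]
      refine ⟨fun _ => 0, fun _ => le_rfl, fun _ _ => rfl, ?_⟩
      intro z
      simp
    · exact (NN.smul (h1 i) (hF.pow i)).le (Nat.mul_le_mul_right e hi)
  have h5 := NN.tsum h4 (fun r hr => h3.summable_norm (F r))
  exact h5.congr (fun z => (h3 (F z)).tsum_eq)

end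

end Pool.Agent.H65.LacPS
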