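import Mathlib
import Pool.Agent.H65.LacPS

set_option autoImplicit false

namespace Pool.Agent.H65.LacPS

open Filter Topology

noncomputable section

theorem PS_exp (c : ℝ) : PS (fun k => c ^ k / (Nat.factorial k : ℝ)) (fun z => Complex.exp (c * z)) := by
  intro z
  have h := NormedSpace.expSeries_div_hasSum_exp (𝔸 := ℂ) ((c : ℂ) * z)
  rw [← Complex.exp_eq_exp_ℂ] at h
  refine hs_congr h (fun k => ?_)
  push_cast
  rw [mul_pow]
  ring

theorem NN_exp {c : ℝ} (hc : 0 ≤ c) : NN 0 (fun z => Complex.exp (c * z)) :=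
  ⟨_, fun k => by positivity, fun k hk => by omega, PS_exp c⟩

/-- `(exp x - 1 - x) / x ^ 2` -/
def psi (x : ℂ) : ℂ := ∑' k : ℕ, (((1 / (Nat.factorial (k + 2) : ℝ) : ℝ)) : ℂ) * x ^ k

theorem PS_psi : PS (fun k => 1 / (Nat.factorial (k + 2) : ℝ)) psi := by
  intro x
  refine Summable.hasSum ?_
  refine Summable.of_norm ?_
  have h := (PS_exp 1).summable_norm x
  refine h.of_nonneg_of_le (fun k => norm_nonneg _) (fun k => ?_)
  simp only [norm_mul]
  refine mul_le_mul_of_nonneg_right ?_ (norm_nonneg _)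
  rw [Complex.norm_real, Complex.norm_real, Real.norm_of_nonneg (by positivity),
    Real.norm_of_nonneg (by positivity), one_pow]
  apply one_div_le_one_div_of_le (by positivity)
  exact_mod_cast Nat.factorial_le (by omega)

theorem NN_psi : NN 0 psi := ⟨_, fun k => by positivity, fun k hk => by omega, PS_psi⟩

theorem psi_eq (x : ℂ) : x ^ 2 * psi x = Complex.exp x - 1 - x := by
  have h := NormedSpace.expSeries_div_hasSum_exp (𝔸 := ℂ) x
  rw [← Complex.exp_eq_exp_ℂ] at h
  have h2 := (hasSum_nat_add_iff' 2).2 h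
  have h3 := (PS_psi x).mul_left (x ^ 2)
  have h4 : HasSum (fun k => x ^ (k + 2) / (Nat.factorial (k + 2) : ℂ)) (x ^ 2 * psi x) := by
    refine hs_congr h3 (fun k => ?_)
    push_cast
    ring
  rw [h4.unique h2]
  simp [Finset.sum_range_succ]
  ring

/-- the killing factor -/
def Hf (w : ℂ) : ℂ := Complex.exp (-2 * w + (Complex.exp (6 * w) - 1) / 6)

theorem Hf_zero : Hf 0 = 1 := by simp [Hf]

theorem Hf_deriv : HasDerivAt Hf (-1) 0 := by
  have h1 : HasDerivAt (fun w : ℂ => 6 * w) 6 0 := by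
    simpa using (hasDerivAt_id (0 : ℂ)).const_mul 6
  have h2 := h1.cexp
  have h3 := (h2.sub_const 1).div_const 6
  have h4 : HasDerivAt (fun w : ℂ => -2 * w) (-2) 0 := by
    simpa using (hasDerivAt_id (0 : ℂ)).const_mul (-2)
  have h5 := (h4.add h3).cexp
  have h6 : HasDerivAt Hf _ 0 := h5
  convert h6 using 1
  simp
  norm_num

theorem Hf_decomp (w : ℂ) : Hf w = (Real.exp (-(1 / 6)) : ℂ) * ((Complex.exp ((-2 : ℝ) * w) +
    ((1 / 6 : ℝ) : ℂ) * Complex.exp ((4 : ℝ) * w)) + ((1 / 36 : ℝ) : ℂ) * (Complex.exp ((10 : ℝ) * w) *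
      psi (((1 / 6 : ℝ) : ℂ) * Complex.exp ((6 : ℝ) * w)))) := by
  set y : ℂ := ((1 / 6 : ℝ) : ℂ) * Complex.exp ((6 : ℝ) * w) with hy
  have h1 := psi_eq y
  have h2 : Hf w = Complex.exp (-(1 / 6)) * Complex.exp ((-2 : ℝ) * w) * Complex.exp y := by
    unfold Hf
    rw [← Complex.exp_add, ← Complex.exp_add]
    congr 1
    rw [hy]
    push_cast
    ring
  have h3 : Complex.exp y = 1 + y + y ^ 2 * psi y := by rw [h1]; ring
  have h4 : Complex.exp ((4 : ℝ) * w) = Complex.exp ((-2 : ℝ) * w) * Complex.exp ((6 : ℝ) * w) := by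
    rw [← Complex.exp_add]; congr 1; push_cast; ring
  have h5 : Complex.exp ((10 : ℝ) * w) = Complex.exp ((-2 : ℝ) * w) * (Complex.exp ((6 : ℝ) * w)) ^ 2 := by
    rw [← Complex.exp_nat_mul, ← Complex.exp_add]; congr 1; push_cast; ring
  rw [h2, h3, h4, h5]
  generalize psi y = q
  rw [hy]
  push_cast
  ring

theorem NN_rest : NN 0 (fun w : ℂ => (Real.exp (-(1 / 6)) : ℂ) * (((1 / 36 : ℝ) : ℂ) *
    (Complex.exp ((10 : ℝ) * w) * psi (((1 / 6 : ℝ) : ℂ) * Complex.exp ((6 : ℝ) * w))))) := by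
  refine NN.smul (Real.exp_pos _).le (NN.smul (by norm_num) ?_)
  have h1 : NN 0 (fun w : ℂ => ((1 / 6 : ℝ) : ℂ) * Complex.exp ((6 : ℝ) * w)) :=
    NN.smul (by norm_num) (NN_exp (by norm_num))
  have h2 := NN_psi.comp h1
  exact (NN_exp (c := 10) (by norm_num)).mul (h2.le (Nat.zero_le _))

theorem exists_h : ∃ h : ℕ → ℝ, PS h Hf ∧ h 0 = 1 ∧ h 1 = -1 ∧ 1 ≤ h 2 ∧ ∀ k, 2 ≤ k → 0 ≤ h k := by
  obtain ⟨q, hq1, -, hq3⟩ := NN_rest
  have h1 := (((PS_exp (-2)).add ((PS_exp 4).smul (1 / 6))).smul (Real.exp (-(1 / 6)))).add hq3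
  have h2 : PS _ Hf := h1.congr (fun w => by rw [Hf_decomp]; ring)
  refine ⟨_, h2, ?_, ?_, ?_, ?_⟩
  · have := h2.coeff_zero
    rw [Hf_zero] at this
    exact_mod_cast this
  · have := h2.coeff_one Hf_deriv
    exact_mod_cast this
  · have h6 := hq1 2
    have h7 : (5 / 6 : ℝ) ≤ Real.exp (-(1 / 6)) := by
      have := Real.add_one_le_exp (-(1 / 6 : ℝ))
      linarith
    have : Nat.factorial 2 = 2 := rfl
    rw [this]
    norm_num
    nlinarith
  · intro k hk
    have h6 := hq1 k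
    have h7 : 0 ≤ (-2 : ℝ) ^ k / (Nat.factorial k : ℝ) + 1 / 6 * ((4 : ℝ) ^ k / (Nat.factorial k : ℝ)) := by
      have e : (-2 : ℝ) ^ k / (Nat.factorial k : ℝ) + 1 / 6 * ((4 : ℝ) ^ k / (Nat.factorial k : ℝ)) =
          ((-2) ^ k + 4 ^ k / 6) / (Nat.factorial k : ℝ) := by ring
      rw [e]
      refine div_nonneg ?_ (by positivity)
      rcases Nat.even_or_odd k with he | ho
      · have : 0 ≤ (-2 : ℝ) ^ k := he.pow_nonneg _
        positivity
      · have e2 : (-2 : ℝ) ^ k = -(2 ^ k) := ho.neg_pow 2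
        rw [e2]
        have hk3 : 3 ≤ k := by
          rcases Nat.lt_or_ge k 3 with h | h
          · have : k = 2 := by omega
            subst this
            exact absurd ho (by decide)
          · exact h
        have e3 : (4 : ℝ) ^ k = 2 ^ k * 2 ^ k := by
          rw [← mul_pow]; norm_num
        have e4 : (2 : ℝ) ^ 3 ≤ 2 ^ k := pow_le_pow_right₀ (by norm_num) hk3
        rw [e3]
        nlinarith
    have := Real.exp_pos (-(1 / 6 : ℝ))
    have := mul_nonneg this.le h7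
    linarith

theorem NN_U : NN 2 (fun w => Hf w - 1 + w) := by
  obtain ⟨h, h1, h2, h3, h4, h5⟩ := exists_h
  have h6 := (h1.sub (PS.mono 0 1)).add (PS.mono 1 1)
  refine ⟨_, fun k => ?_, fun k hk => ?_, h6.congr (fun w => by simp)⟩
  · rcases k with _ | _ | k
    · simp [h2]
    · simp [h3]
    · simp [h5 (k + 2) (by omega)]
  · rcases k with _ | _ | k
    · simp [h2]
    · simp [h3]
    · omega

theorem NN_V : NN 2 (fun w => (1 + w) * Hf w - 1) := by
  obtain ⟨h, h1, h2, h3, h4, h5⟩ := exists_h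
  have h6 := h1.add ((PS.mono 1 1).mul h1)
  have h7 := h6.sub (PS.mono 0 1)
  have key : ∀ k, (∑ p ∈ Finset.HasAntidiagonal.antidiagonal (k + 1), (if p.1 = 1 then (1 : ℝ) else 0) * h p.2) = h k := by
    intro k
    rw [Finset.sum_eq_single (1, k)]
    · simp
    · rintro ⟨i, j⟩ hij hne
      have := Finset.HasAntidiagonal.mem_antidiagonal.1 hij
      simp only at this ⊢
      rw [if_neg, zero_mul]
      rintro rfl
      apply hne
      rw [Prod.mk.injEq]
      exact ⟨rfl, by omega⟩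
    · intro hn
      exact absurd (Finset.HasAntidiagonal.mem_antidiagonal.2 (by omega)) hn
  refine ⟨_, fun k => ?_, fun k hk => ?_, h7.congr (fun w => by simp; ring)⟩
  · rcases k with _ | _ | k
    · simp [h2]
    · simp only [key]
      simp [h2, h3]
    · simp only [key]
      rcases k with _ | k
      · simp [h3]; linarith
      · have g1 := h5 (k + 2) (by omega)
        have g2 := h5 (k + 3) (by omega)
        simp
        linarith
  · rcases k with _ | _ | k
    · simp [h2]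
    · simp only [key]
      simp [h2, h3]
    · omega

theorem NN_V' : NN 0 (fun w => (1 + w) * Hf w) := by
  have h1 := (NN_V.le (Nat.zero_le 2)).add (NN.const zero_le_one)
  exact h1.congr (fun w => by simp)

end

end Pool.Agent.H65.LacPS
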