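import Mathlib
import Pool.Agent.H65.LacH

set_option autoImplicit false

namespace Pool.Agent.H65.LacPS

open Filter Topology

noncomputable section

/-- the exponent used to remove the coefficient `c = a m` -/
def Ex (c : ℝ) (m : ℕ) (F : ℂ → ℂ) (z : ℂ) : ℂ :=
  (F z - 1) * ((c : ℂ) * z ^ m + ((c : ℂ) * z ^ m) ^ 2) +
    (-2 * ((c : ℂ) * z ^ m) + (Complex.exp (6 * ((c : ℂ) * z ^ m)) - 1) / 6)

theorem step_NN {a : ℕ → ℝ} {F : ℂ → ℂ} (ha : ∀ k, 0 ≤ a k) (h0 : a 0 = 1) (hF : PS a F) (m : ℕ)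
    (hm : 1 ≤ m) : NN (m + 1) (fun z => F z * Complex.exp (Ex (a m) m F z) - F z + (a m : ℂ) * z ^ m) := by
  have hFN : NN 0 F := ⟨a, ha, fun k hk => by omega, hF⟩
  have hK : NN 1 (fun z => F z - 1) := by
    refine ⟨_, fun k => ?_, fun k hk => ?_, (hF.sub (PS.mono 0 1)).congr (fun z => by simp)⟩
    · rcases k with _ | k
      · simp [h0]
      · simp [ha]
    · have : k = 0 := by omega
      subst this
      simp [h0]
  have hW : NN m (fun z => (a m : ℂ) * z ^ m) := NN.mono m (ha m)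
  have hW1 : NN 0 (fun z => 1 + (a m : ℂ) * z ^ m) :=
    ((NN.const zero_le_one).add (hW.le (Nat.zero_le m))).congr (fun z => by simp)
  have hU : NN (m + 1) (fun z => Hf ((a m : ℂ) * z ^ m) - 1 + (a m : ℂ) * z ^ m) :=
    (NN_U.comp hW).le (by omega)
  have hV : NN (m + 1) (fun z => (F z - 1) * ((a m : ℂ) * z ^ m) *
      ((1 + (a m : ℂ) * z ^ m) * Hf ((a m : ℂ) * z ^ m) - 1)) :=
    ((hK.mul hW).mul (NN_V.comp hW)).le (by omega)
  have hX : NN 0 (fun z => (F z - 1) * ((a m : ℂ) * z ^ m) * (1 + (a m : ℂ) * z ^ m)) :=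
    ((hK.mul hW).mul hW1).le (by omega)
  have hpsi := NN_psi.comp hX
  have hV' := NN_V'.comp hW
  have hT : NN (m + 1) (fun z => ((F z - 1) * ((a m : ℂ) * z ^ m)) * ((F z - 1) * ((a m : ℂ) * z ^ m)) *
      (1 + (a m : ℂ) * z ^ m) * ((1 + (a m : ℂ) * z ^ m) * Hf ((a m : ℂ) * z ^ m)) *
      psi ((F z - 1) * ((a m : ℂ) * z ^ m) * (1 + (a m : ℂ) * z ^ m))) :=
    (((((hK.mul hW).mul (hK.mul hW)).mul hW1).mul hV').mul hpsi).le (by omega)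
  have hS := (hU.add hV).add hT
  have hFS := (hFN.mul hS).le (show m + 1 ≤ 0 + (m + 1) by omega)
  have hWK := (hW.mul (hK.mul hK)).le (show m + 1 ≤ m + (1 + 1) by omega)
  refine (hFS.add hWK).congr (fun z => ?_)
  have e1 : Complex.exp (Ex (a m) m F z) =
      Complex.exp ((F z - 1) * ((a m : ℂ) * z ^ m) * (1 + (a m : ℂ) * z ^ m)) *
        Hf ((a m : ℂ) * z ^ m) := by
    unfold Ex Hf
    rw [← Complex.exp_add]
    congr 1
    ring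
  have e2 := psi_eq ((F z - 1) * ((a m : ℂ) * z ^ m) * (1 + (a m : ℂ) * z ^ m))
  have e3 : Complex.exp ((F z - 1) * ((a m : ℂ) * z ^ m) * (1 + (a m : ℂ) * z ^ m)) =
      1 + (F z - 1) * ((a m : ℂ) * z ^ m) * (1 + (a m : ℂ) * z ^ m) +
      ((F z - 1) * ((a m : ℂ) * z ^ m) * (1 + (a m : ℂ) * z ^ m)) ^ 2 *
        psi ((F z - 1) * ((a m : ℂ) * z ^ m) * (1 + (a m : ℂ) * z ^ m)) := by
    rw [e2]; ring
  rw [e1, e3]
  generalize psi ((F z - 1) * ((a m : ℂ) * z ^ m) * (1 + (a m : ℂ) * z ^ m)) = q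
  generalize Hf ((a m : ℂ) * z ^ m) = h
  ring

theorem step {a : ℕ → ℝ} {F : ℂ → ℂ} (ha : ∀ k, 0 ≤ a k) (h0 : a 0 = 1) (hF : PS a F) (m : ℕ)
    (hm : 1 ≤ m) : ∃ b : ℕ → ℝ, (∀ k, 0 ≤ b k) ∧ (∀ k < m, b k = a k) ∧ b m = 0 ∧
      (∀ k, m < k → a k ≤ b k) ∧ PS b (fun z => F z * Complex.exp (Ex (a m) m F z)) := by
  obtain ⟨g, g1, g2, g3⟩ := step_NN ha h0 hF m hm
  have h1 := (hF.sub (PS.mono m (a m))).add g3
  refine ⟨_, fun k => ?_, fun k hk => ?_, ?_, fun k hk => ?_, h1.congr (fun z => by ring)⟩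
  · rcases lt_trichotomy k m with h | h | h
    · simp [g2 k (by omega), h.ne, ha k]
    · subst h
      simp [g2 k (by omega)]
    · simp only [if_neg h.ne', sub_zero]
      exact add_nonneg (ha k) (g1 k)
  · simp [g2 k (by omega), hk.ne]
  · simp [g2 m (by omega)]
  · simp only [if_neg hk.ne', sub_zero]
    linarith [g1 k]

theorem Ex_norm (c : ℝ) (m : ℕ) (F : ℂ → ℂ) (z : ℂ) (h : ‖(c : ℂ) * z ^ m‖ ≤ 1 / 6) :
    ‖Ex c m F z‖ ≤ ‖(c : ℂ) * z ^ m‖ * (2 * ‖F z‖ + 6) := by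
  unfold Ex
  set w := (c : ℂ) * z ^ m with hw
  have h6 : ‖6 * w‖ ≤ 1 := by
    rw [norm_mul]
    norm_num
    linarith
  have h1 : ‖Complex.exp (6 * w) - 1‖ ≤ 2 * ‖6 * w‖ := Complex.norm_exp_sub_one_le h6
  have h1' : ‖(Complex.exp (6 * w) - 1) / 6‖ ≤ 2 * ‖w‖ := by
    rw [norm_div]
    rw [norm_mul] at h1
    norm_num at h1 ⊢
    linarith
  have h2 : ‖w + w ^ 2‖ ≤ 2 * ‖w‖ := by
    refine (norm_add_le _ _).trans ?_
    rw [norm_pow]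
    nlinarith [norm_nonneg w]
  have h3 : ‖F z - 1‖ ≤ ‖F z‖ + 1 := by
    refine (norm_sub_le _ _).trans ?_
    simp
  have h4 : ‖(F z - 1) * (w + w ^ 2)‖ ≤ (‖F z‖ + 1) * (2 * ‖w‖) := by
    rw [norm_mul]
    exact mul_le_mul h3 h2 (norm_nonneg _) (by positivity)
  have h5 : ‖-2 * w‖ = 2 * ‖w‖ := by
    rw [norm_mul]; norm_num
  calc ‖(F z - 1) * (w + w ^ 2) + (-2 * w + (Complex.exp (6 * w) - 1) / 6)‖
      ≤ ‖(F z - 1) * (w + w ^ 2)‖ + (‖-2 * w‖ + ‖(Complex.exp (6 * w) - 1) / 6‖) := by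
        refine (norm_add_le _ _).trans ?_
        exact add_le_add le_rfl (norm_add_le _ _)
    _ ≤ (‖F z‖ + 1) * (2 * ‖w‖) + (2 * ‖w‖ + 2 * ‖w‖) := by
        rw [h5]; linarith
    _ = ‖w‖ * (2 * ‖F z‖ + 6) := by ring

theorem Ex_real (a : ℕ → ℝ) (F : ℂ → ℂ) (hF : PS a F) (m : ℕ) (x : ℝ) :
    Ex (a m) m F x = (((val a x - 1) * (a m * x ^ m + (a m * x ^ m) ^ 2) +
    (-2 * (a m * x ^ m) + (Real.exp (6 * (a m * x ^ m)) - 1) / 6) : ℝ) : ℂ) := by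
  unfold Ex
  rw [hF.eq_val]
  push_cast
  ring

theorem step_growth {a b : ℕ → ℝ} {F : ℂ → ℂ} (ha : ∀ k, 0 ≤ a k) (hF : PS a F) (m : ℕ)
    (hb : PS b (fun z => F z * Complex.exp (Ex (a m) m F z))) (x : ℝ) (hx : 0 ≤ x)
    (h3 : 3 ≤ val a x) : val a x * Real.exp (a m * x ^ m) ≤ val b x := by
  have h1 := hb.eq_val x
  rw [Ex_real a F hF m x, hF.eq_val, ← Complex.ofReal_exp, ← Complex.ofReal_mul] at h1
  have h2 := Complex.ofReal_injective h1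
  rw [← h2]
  have hw : 0 ≤ a m * x ^ m := mul_nonneg (ha m) (pow_nonneg hx m)
  refine mul_le_mul_of_nonneg_left (Real.exp_le_exp.2 ?_) (by linarith)
  have h4 := Real.add_one_le_exp (6 * (a m * x ^ m))
  nlinarith [mul_nonneg (show (0:ℝ) ≤ val a x - 3 by linarith) hw, mul_nonneg (show (0:ℝ) ≤ val a x - 3 by linarith) (mul_nonneg hw hw), mul_nonneg hw hw]

end

end Pool.Agent.H65.LacPS
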