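import Mathlib
import Pool.Agent.H65.LacStep

set_option autoImplicit false

namespace Pool.Agent.H65.LacPS

open Filter Topology

noncomputable section

/-- entire functions with nonnegative coefficients and constant term `1` -/
structure St where
  a : ℕ → ℝ
  F : ℂ → ℂ
  nn : ∀ k, 0 ≤ a k
  one : a 0 = 1
  ps : PS a F

theorem exists_pow_small (C ε : ℝ) (hε : 0 < ε) : ∃ M1 : ℕ, ∀ m ≥ M1, C / 2 ^ m ≤ ε := by
  have h : Tendsto (fun m : ℕ => C * (1 / 2 : ℝ) ^ m) atTop (𝓝 (C * 0)) :=
    (tendsto_pow_atTop_nhds_zero_of_lt_one (by norm_num) (by norm_num)).const_mul C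
  rw [mul_zero] at h
  obtain ⟨M1, hM1⟩ := eventually_atTop.1 (h.eventually_le_const hε)
  refine ⟨M1, fun m hm => ?_⟩
  have := hM1 m hm
  rwa [one_div, inv_pow, ← div_eq_mul_inv] at this

theorem block (n : ℕ) : ∀ (s : St) (R ε : ℝ), 0 < R → 0 < ε → ∃ M0 : ℕ, ∀ M ≥ M0,
    ∃ (t : St) (E : ℂ → ℂ), (∀ z, t.F z = s.F z * Complex.exp (E z)) ∧
      (∀ z, ‖z‖ ≤ R → ‖E z‖ ≤ ε) ∧ (∀ k ≤ M, t.a k = s.a k) ∧
      (∀ k, M < k → k ≤ M + n → t.a k = 0) ∧ (∀ k, M + n < k → s.a k ≤ t.a k) ∧
      (∀ x, 0 ≤ x → 3 ≤ val s.a x → val s.a x ≤ val t.a x) ∧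
      (1 ≤ n → ∀ x, 0 ≤ x → 3 ≤ val s.a x →
        val s.a x * Real.exp (s.a (M + 1) * x ^ (M + 1)) ≤ val t.a x) := by
  induction n with
  | zero =>
    intro s R ε hR hε
    refine ⟨0, fun M _ => ⟨s, fun _ => 0, fun z => by simp, fun z _ => by simpa using hε.le,
      fun k _ => rfl, fun k h1 h2 => by omega, fun k _ => le_rfl, fun x _ _ => le_rfl,
      fun h => by omega⟩⟩
  | succ n ih =>
    intro s R ε hR hε
    obtain ⟨M0, hM0⟩ := ih s (2 * R) (min (ε / 2) 1) (by positivity) (by positivity)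
    set B : ℝ := Real.exp 1 * val s.a (2 * R) with hB
    have hB0 : 0 ≤ B := mul_nonneg (Real.exp_pos _).le (PS.val_nonneg s.nn (by positivity))
    obtain ⟨M1, hM1⟩ := exists_pow_small (B * (2 * B + 6)) (ε / 2) (by positivity)
    obtain ⟨M2, hM2⟩ := exists_pow_small B (1 / 6) (by positivity)
    refine ⟨max M0 (max M1 M2), fun M hM => ?_⟩
    obtain ⟨t', E', h1, h2, h3, h4, h5, h6, h7⟩ := hM0 M (by omega)
    set m : ℕ := M + n + 1 with hm
    have hval : val t'.a (2 * R) ≤ B := by
      have e1 := t'.ps.eq_val (2 * R)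
      rw [h1] at e1
      have e2 : ‖s.F ((2 * R : ℝ) : ℂ) * Complex.exp (E' ((2 * R : ℝ) : ℂ))‖ = val t'.a (2 * R) := by
        rw [e1, Complex.norm_real, Real.norm_of_nonneg (PS.val_nonneg t'.nn (by positivity))]
      rw [← e2, norm_mul, s.ps.eq_val, Complex.norm_real,
        Real.norm_of_nonneg (PS.val_nonneg s.nn (by positivity)), mul_comm]
      refine mul_le_mul_of_nonneg_right ?_ (PS.val_nonneg s.nn (by positivity))
      rw [Complex.norm_exp]
      apply Real.exp_le_exp.2
      refine (Complex.re_le_norm _).trans ?_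
      refine (h2 _ ?_).trans (min_le_right _ _)
      rw [Complex.norm_real, Real.norm_of_nonneg (by positivity)]
    have hcm : ∀ z : ℂ, ‖z‖ ≤ R → ‖(t'.a m : ℂ) * z ^ m‖ ≤ B / 2 ^ m := by
      intro z hz
      rw [norm_mul, norm_pow, Complex.norm_real, Real.norm_of_nonneg (t'.nn m),
        le_div_iff₀ (by positivity)]
      calc t'.a m * ‖z‖ ^ m * 2 ^ m ≤ t'.a m * R ^ m * 2 ^ m := by
            refine mul_le_mul_of_nonneg_right (mul_le_mul_of_nonneg_left
              (pow_le_pow_left₀ (norm_nonneg _) hz m) (t'.nn m)) (by positivity)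
        _ = t'.a m * (2 * R) ^ m := by rw [mul_pow]; ring
        _ ≤ val t'.a (2 * R) := t'.ps.term_le_val t'.nn (by positivity) m
        _ ≤ B := hval
    have hFz : ∀ z : ℂ, ‖z‖ ≤ R → ‖t'.F z‖ ≤ B := by
      intro z hz
      refine (t'.ps.norm_le t'.nn z).trans (le_trans ?_ hval)
      exact t'.ps.val_mono t'.nn (norm_nonneg _) (by linarith)
    obtain ⟨b, b1, b2, b3, b4, b5⟩ := step t'.nn t'.one t'.ps m (by omega)
    refine ⟨⟨b, fun z => t'.F z * Complex.exp (Ex (t'.a m) m t'.F z), b1, ?_, b5⟩,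
      fun z => E' z + Ex (t'.a m) m t'.F z, fun z => ?_, fun z hz => ?_, fun k hk => ?_,
      fun k hk1 hk2 => ?_, fun k hk => ?_, fun x hx hx3 => ?_, fun _ x hx hx3 => ?_⟩
    · rw [b2 0 (by omega), t'.one]
    · simp only
      rw [h1, Complex.exp_add]; ring
    · have g1 := h2 z (by linarith)
      have g2 := Ex_norm (t'.a m) m t'.F z ((hcm z hz).trans (hM2 m (by omega)))
      have g3 : ‖(t'.a m : ℂ) * z ^ m‖ * (2 * ‖t'.F z‖ + 6) ≤ B / 2 ^ m * (2 * B + 6) := by
        refine mul_le_mul (hcm z hz) ?_ (by positivity) (by positivity)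
        linarith [hFz z hz]
      have g4 : B / 2 ^ m * (2 * B + 6) = B * (2 * B + 6) / 2 ^ m := by ring
      have g5 := hM1 m (by omega)
      have g6 := min_le_left (ε / 2) (1 : ℝ)
      refine (norm_add_le _ _).trans ?_
      linarith
    · simp only
      rw [b2 k (by omega), h3 k hk]
    · simp only
      rcases Nat.lt_or_ge k m with h | h
      · rw [b2 k h, h4 k hk1 (by omega)]
      · have : k = m := by omega
        rw [this, b3]
    · simp only
      exact (h5 k (by omega)).trans (b4 k (by omega))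
    · simp only
      have g1 := h6 x hx hx3
      have g2 := step_growth t'.nn t'.ps m b5 x hx (hx3.trans g1)
      have g3 : 1 ≤ Real.exp (t'.a m * x ^ m) :=
        Real.one_le_exp (mul_nonneg (t'.nn m) (pow_nonneg hx m))
      refine le_trans g1 (le_trans ?_ g2)
      exact le_mul_of_one_le_right (by linarith) g3
    · simp only
      have g1 := h6 x hx hx3
      have g2 := step_growth t'.nn t'.ps m b5 x hx (hx3.trans g1)
      rcases Nat.eq_zero_or_pos n with hn | hn
      · refine le_trans ?_ g2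
        have hm' : m = M + 1 := by omega
        rw [hm']
        refine mul_le_mul g1 (Real.exp_le_exp.2 ?_) (Real.exp_pos _).le (by linarith)
        exact mul_le_mul_of_nonneg_right (h5 (M + 1) (by omega)) (pow_nonneg hx _)
      · have g3 : 1 ≤ Real.exp (t'.a m * x ^ m) :=
          Real.one_le_exp (mul_nonneg (t'.nn m) (pow_nonneg hx m))
        refine le_trans (h7 hn x hx hx3) (le_trans ?_ g2)
        exact le_mul_of_one_le_right (by linarith) g3

/-- what one block does -/
def Good (N j : ℕ) (s : St) (L : ℕ) (t : St) (M : ℕ) (E : ℂ → ℂ) : Prop :=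
  L ≤ M ∧ (∀ z, t.F z = s.F z * Complex.exp (E z)) ∧
      (∀ z, ‖z‖ ≤ (j : ℝ) + 1 → ‖E z‖ ≤ (1 / 2) ^ j) ∧ (∀ k ≤ M, t.a k = s.a k) ∧
      (∀ k, M < k → k ≤ M + N → t.a k = 0) ∧ (∀ k, M + N < k → s.a k ≤ t.a k) ∧
      (∀ x, 0 ≤ x → 3 ≤ val s.a x → val s.a x ≤ val t.a x) ∧
      (∀ x, 0 ≤ x → 3 ≤ val s.a x →
        val s.a x * Real.exp (s.a (M + 1) * x ^ (M + 1)) ≤ val t.a x)

theorem exists_good (N : ℕ) (hN : 1 ≤ N) (j : ℕ) (s : St) (L : ℕ) :
    ∃ p : St × ℕ × (ℂ → ℂ), Good N j s L p.1 p.2.1 p.2.2 := by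
  obtain ⟨M0, hM0⟩ := block N s ((j : ℝ) + 1) ((1 / 2) ^ j) (by positivity) (by positivity)
  obtain ⟨t, E, h1, h2, h3, h4, h5, h6, h7⟩ := hM0 (max M0 L) (le_max_left _ _)
  exact ⟨(t, max M0 L, E), le_max_right _ _, h1, h2, h3, h4, h5, h6, h7 hN⟩

/-- the sequence of functions -/
def sq (N : ℕ) (hN : 1 ≤ N) (s0 : St) : ℕ → St × ℕ
  | 0 => (s0, 1)
  | j + 1 =>
    let p := Classical.choose (exists_good N hN j (sq N hN s0 j).1 (sq N hN s0 j).2)
    (p.1, p.2.1 + N + 1)

theorem exists_seq (N : ℕ) (hN : 1 ≤ N) (s0 : St) : ∃ (s : ℕ → St) (L M : ℕ → ℕ) (E : ℕ → ℂ → ℂ),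
    s 0 = s0 ∧ L 0 = 1 ∧ (∀ j, L (j + 1) = M j + N + 1) ∧
      ∀ j, Good N j (s j) (L j) (s (j + 1)) (M j) (E j) := by
  refine ⟨fun j => (sq N hN s0 j).1, fun j => (sq N hN s0 j).2,
    fun j => (Classical.choose (exists_good N hN j (sq N hN s0 j).1 (sq N hN s0 j).2)).2.1,
    fun j => (Classical.choose (exists_good N hN j (sq N hN s0 j).1 (sq N hN s0 j).2)).2.2,
    rfl, rfl, fun j => rfl, fun j => ?_⟩
  exact Classical.choose_spec (exists_good N hN j (sq N hN s0 j).1 (sq N hN s0 j).2)

theorem limit_exists (N : ℕ) (hN : 1 ≤ N) (s0 : St) (hpos : ∀ k, 0 < s0.a k) (x0 : ℝ) (hx0 : 0 ≤ x0)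
    (h3 : 3 ≤ val s0.a x0) :
    ∃ (a : ℕ → ℝ) (G : ℂ → ℂ) (M : ℕ → ℕ), (∀ k, 0 ≤ a k) ∧
      PS a (fun z => s0.F z * Complex.exp (G z)) ∧ (∀ j, M j + N + 1 ≤ M (j + 1)) ∧
      (∀ k, a k = 0 ↔ ∃ j, M j < k ∧ k ≤ M j + N) ∧
      (∀ j : ℕ, ∃ c : ℝ, 0 < c ∧ ∀ x : ℝ, x0 ≤ x → 1 ≤ x → Real.exp (c * x ^ j) ≤ val a x) := by
  obtain ⟨s, L, M, E, hs0, hL0, hL, hgood⟩ := exists_seq N hN s0
  have hML : ∀ j, L j ≤ M j := fun j => (hgood j).1
  have hMM : ∀ j, M j + N + 1 ≤ M (j + 1) := fun j => by rw [← hL j]; exact hML (j + 1)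
  have hMj : ∀ j, j + 1 ≤ M j := by
    intro j
    induction j with
    | zero => have := hML 0; omega
    | succ j ih => have := hMM j; omega
  -- stabilisation
  have hstab : ∀ k j, k ≤ j → (s j).a k = (s k).a k := by
    intro k j hkj
    induction j, hkj using Nat.le_induction with
    | base => rfl
    | succ j hj ih =>
      have := (hgood j).2.2.2.1 k (by have := hMj j; omega)
      rw [this, ih]
  have hFj : ∀ z j, (s j).F z = s0.F z * Complex.exp (∑ i ∈ Finset.range j, E i z) := by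
    intro z j
    induction j with
    | zero => simp [hs0]
    | succ j ih =>
      rw [(hgood j).2.1 z, ih, Finset.sum_range_succ, Complex.exp_add]
      ring
  have hsumE : ∀ z, Summable (fun i => E i z) := by
    intro z
    refine Summable.of_norm_bounded_eventually_nat (g := fun i => (1 / 2 : ℝ) ^ i)
      (summable_geometric_of_lt_one (by norm_num) (by norm_num)) ?_
    obtain ⟨n0, hn0⟩ := exists_nat_ge ‖z‖
    filter_upwards [eventually_ge_atTop n0] with i hi
    refine (hgood i).2.2.1 z ?_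
    have : (n0 : ℝ) ≤ i := by exact_mod_cast hi
    linarith
  have htend : ∀ z, Tendsto (fun j => (s j).F z) atTop
      (𝓝 (s0.F z * Complex.exp (∑' i, E i z))) := by
    intro z
    have h1 := (hsumE z).hasSum.tendsto_sum_nat
    have h2 := ((Complex.continuous_exp.tendsto _).comp h1).const_mul (s0.F z)
    refine h2.congr (fun j => ?_)
    rw [hFj z j]
    rfl
  have hbdd : ∀ r : ℝ, 0 ≤ r → ∃ C : ℝ, ∀ j, val (s j).a r ≤ C := by
    intro r hr
    obtain ⟨C, hC⟩ := (htend r).norm.bddAbove_range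
    refine ⟨C, fun j => ?_⟩
    have := hC ⟨j, rfl⟩
    simp only at this
    rwa [(s j).ps.eq_val, Complex.norm_real, Real.norm_of_nonneg (PS.val_nonneg (s j).nn hr)] at this
  set a : ℕ → ℝ := fun k => (s k).a k with ha
  have hterm : ∀ z : ℂ, ∃ C : ℝ, ∀ j k, ‖((s j).a k : ℂ) * z ^ k‖ ≤ C * (1 / 2) ^ k := by
    intro z
    obtain ⟨C, hC⟩ := hbdd (2 * ‖z‖) (by positivity)
    refine ⟨C, fun j k => ?_⟩
    have h1 := (s j).ps.term_le_val (s j).nn (show (0:ℝ) ≤ 2 * ‖z‖ by positivity) k
    have h2 := h1.trans (hC j)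
    rw [norm_mul, norm_pow, Complex.norm_real, Real.norm_of_nonneg ((s j).nn k), one_div, inv_pow,
      ← div_eq_mul_inv, le_div_iff₀ (by positivity)]
    rw [mul_pow] at h2
    linarith
  have hPS : PS a (fun z => s0.F z * Complex.exp (∑' i, E i z)) := by
    intro z
    obtain ⟨C, hC⟩ := hterm z
    have hsum : Summable (fun k : ℕ => C * (1 / 2 : ℝ) ^ k) :=
      (summable_geometric_of_lt_one (by norm_num) (by norm_num)).mul_left C
    have h1 : Tendsto (fun j => ∑' k, ((s j).a k : ℂ) * z ^ k) atTop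
        (𝓝 (∑' k, (a k : ℂ) * z ^ k)) := by
      refine tendsto_tsum_of_dominated_convergence (bound := fun k => C * (1 / 2) ^ k) hsum
        (fun k => ?_) (Eventually.of_forall (fun j k => hC j k))
      refine tendsto_const_nhds.congr' ?_
      filter_upwards [eventually_ge_atTop k] with j hj
      rw [hstab k j hj]
    have h2 : Tendsto (fun j => ∑' k, ((s j).a k : ℂ) * z ^ k) atTop
        (𝓝 (s0.F z * Complex.exp (∑' i, E i z))) := by
      refine (htend z).congr (fun j => ?_)
      rw [((s j).ps z).tsum_eq]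
    have h3 := tendsto_nhds_unique h1 h2
    have h4 : Summable (fun k => (a k : ℂ) * z ^ k) := by
      refine Summable.of_norm_bounded hsum (fun k => ?_)
      exact hC k k
    show HasSum _ (s0.F z * Complex.exp (∑' i, E i z))
    rw [← h3]
    exact h4.hasSum
  -- positivity
  have hposj : ∀ j k, L j ≤ k → 0 < (s j).a k := by
    intro j
    induction j with
    | zero => intro k _; rw [hs0]; exact hpos k
    | succ j ih =>
      intro k hk
      rw [hL j] at hk
      have h1 := (hgood j).2.2.2.2.2.1 k (by omega)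
      have h2 := ih k (by have := hML j; omega)
      linarith
  have hzero : ∀ j k, (s j).a k = 0 ↔ ∃ i < j, M i < k ∧ k ≤ M i + N := by
    intro j
    induction j with
    | zero =>
      intro k
      rw [hs0]
      constructor
      · intro h; exact absurd h (hpos k).ne'
      · rintro ⟨i, hi, -⟩; omega
    | succ j ih =>
      intro k
      rcases Nat.lt_or_ge (M j) k with h | h
      · rcases Nat.lt_or_ge (M j + N) k with h' | h'
        · have h1 := hposj (j + 1) k (by rw [hL j]; omega)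
          constructor
          · intro h2; exact absurd h2 h1.ne'
          · rintro ⟨i, hi, h4, h5⟩
            exfalso
            have : M i ≤ M j := by
              have hmono : StrictMono M := strictMono_nat_of_lt_succ (fun j => by have := hMM j; omega)
              exact hmono.monotone (by omega)
            omega
        · constructor
          · intro _; exact ⟨j, by omega, h, h'⟩
          · intro _; exact (hgood j).2.2.2.2.1 k h h'
      · rw [(hgood j).2.2.2.1 k h, ih k]
        constructor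
        · rintro ⟨i, hi, h4, h5⟩; exact ⟨i, by omega, h4, h5⟩
        · rintro ⟨i, hi, h4, h5⟩
          refine ⟨i, ?_, h4, h5⟩
          rcases Nat.lt_or_ge i j with h6 | h6
          · exact h6
          · have : i = j := by omega
            subst this
            omega
  refine ⟨a, fun z => ∑' i, E i z, M, fun k => (s k).nn k, hPS, hMM, fun k => ?_, fun j => ?_⟩
  · rw [ha]
    simp only
    rw [hzero k k]
    constructor
    · rintro ⟨i, -, h⟩; exact ⟨i, h⟩
    · rintro ⟨i, h1, h2⟩
      exact ⟨i, by have := hMj i; omega, h1, h2⟩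
  · -- growth
    have hc : 0 < (s j).a (M j + 1) := hposj j _ (by have := hML j; omega)
    refine ⟨(s j).a (M j + 1), hc, fun x hx hx1 => ?_⟩
    have hx00 : 0 ≤ x := hx0.trans hx
    have hval3 : ∀ i, 3 ≤ val (s i).a x := by
      intro i
      induction i with
      | zero =>
        rw [hs0]
        exact h3.trans (s0.ps.val_mono s0.nn hx0 hx)
      | succ i ih =>
        exact ih.trans ((hgood i).2.2.2.2.2.2.1 x hx00 ih)
    have hmono : ∀ i, j + 1 ≤ i → val (s (j + 1)).a x ≤ val (s i).a x := by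
      intro i hi
      induction i, hi using Nat.le_induction with
      | base => exact le_rfl
      | succ i _ ih => exact ih.trans ((hgood i).2.2.2.2.2.2.1 x hx00 (hval3 i))
    have hlim : Tendsto (fun i => val (s i).a x) atTop (𝓝 (val a x)) := by
      have h1 := htend x
      have h2 := hPS.eq_val x
      rw [h2] at h1
      have h4 : Tendsto (fun i => ((val (s i).a x : ℝ) : ℂ)) atTop (𝓝 ((val a x : ℝ) : ℂ)) := by
        refine h1.congr (fun i => ?_)
        rw [(s i).ps.eq_val]
      have h5 := (Complex.continuous_re.tendsto _).comp h4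
      exact h5
    have hle : val (s (j + 1)).a x ≤ val a x := by
      refine ge_of_tendsto hlim ?_
      filter_upwards [eventually_ge_atTop (j + 1)] with i hi
      exact hmono i hi
    have hg := (hgood j).2.2.2.2.2.2.2 x hx00 (hval3 j)
    refine le_trans ?_ hle
    refine le_trans ?_ hg
    have h6 : Real.exp ((s j).a (M j + 1) * x ^ j) ≤ Real.exp ((s j).a (M j + 1) * x ^ (M j + 1)) := by
      apply Real.exp_le_exp.2
      refine mul_le_mul_of_nonneg_left ?_ hc.le
      exact pow_le_pow_right₀ hx1 (by have := hMj j; omega)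
    refine h6.trans ?_
    have := hval3 j
    exact le_mul_of_one_le_left (Real.exp_pos _).le (by linarith)

end

end Pool.Agent.H65.LacPS
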